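import Pool.Agent.EVW.FRG

/-!
# MP_3e5173_lc: existential conditions with bounded quantifiers which hold for all polynomials
hold for almost all rational functions
-/

set_option autoImplicit false

namespace Pool.Agent.Results.MP_3e5173_lc.AlmostAll

open Polynomial EVR EVW

/-- An existential condition of the kind `BJ` which holds for all polynomials holds for all but
finitely many rational functions. -/
theorem result : ∀ (R N : ℕ) (Φ : (Unit → K) → Prop), BJ R N Unit Φ →
    (∀ p : ℂ[X], Φ (fun _ => pz p)) → {x : K | ¬ Φ (fun _ => x)}.Finite :=
  first

end Pool.Agent.Results.MP_3e5173_lc.AlmostAll
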