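import Pool.Agent.EVW.FRG

/-!
# MP_3e5173_lc: conditions with bounded quantifiers do not define the valuation ring of `ℂ(Z)`
at `Z = 0`
-/

set_option autoImplicit false

namespace Pool.Agent.Results.MP_3e5173_lc.BoundedFormulas

open Polynomial EVR EVW

/-- No condition on one element of `ℂ(Z)`, built from quantifier-free conditions (preceded by at
most one quantifier over `ℂ(Z)`) with negations, countable conjunctions and quantifiers over
countable sets, over roots of polynomials, over `ℂ`, and over the points of elliptic curves and of
curves `vᵐ = uⁿ + C`, defines the ring `O_0`. -/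
theorem result : ∀ (R N : ℕ) (Φ : (Unit → K) → Prop), BI R N Unit Φ →
    {x : K | Φ (fun _ => x)} ≠ O0 :=
  second

end Pool.Agent.Results.MP_3e5173_lc.BoundedFormulas
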